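import Mathlib

set_option autoImplicit false
set_option linter.all false

namespace Pool.Agent.Results.MP_c9edc3_al.DihedralExample

/-- The symmetric inverse monoid: partial bijections, with `f * g` meaning `f` then `g`. -/
def SIM (S : Type) : Type := PEquiv S S

instance (S : Type) : Monoid (SIM S) where
  mul f g := PEquiv.trans f g
  one := PEquiv.refl S
  mul_assoc := PEquiv.trans_assoc
  one_mul := PEquiv.refl_trans
  mul_one := PEquiv.trans_refl

/-- Evaluation of a partial bijection. -/
def ev {S : Type} (f : SIM S) (a : S) : Option S := PEquiv.toFun f a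

theorem ev_ext {S : Type} {f g : SIM S} (h : ∀ a, ev f a = ev g a) : f = g := PEquiv.ext h

theorem ev_mul {S : Type} (f g : SIM S) (a : S) : ev (f * g) a = (ev f a).bind (ev g) := rfl

open Classical in
/-- The partial map `a ↦ h a g` on the set of all `a` with `gh a = a = a gh`. -/
noncomputable def phi {S : Type} [Monoid S] (g h : S) : SIM S where
  toFun a := if g * h * a = a ∧ a * (g * h) = a then some (h * a * g) else none
  invFun b := if h * g * b = b ∧ b * (h * g) = b then some (g * b * h) else none
  inv a b := by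
    constructor
    · intro hh
      split_ifs at hh with h1
      have h2 : g * b * h = a := Option.some.inj hh
      subst h2
      have h3 : g * h * (g * b * h) = g * b * h := by
        calc g * h * (g * b * h) = g * (h * g * b) * h := by simp only [mul_assoc]
          _ = g * b * h := by rw [h1.1]
      have h4 : g * b * h * (g * h) = g * b * h := by
        calc g * b * h * (g * h) = g * (b * (h * g)) * h := by simp only [mul_assoc]
          _ = g * b * h := by rw [h1.2]
      rw [if_pos ⟨h3, h4⟩]
      congr 1
      calc h * (g * b * h) * g = (h * g * b) * (h * g) := by simp only [mul_assoc]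
        _ = b := by rw [h1.1, h1.2]
    · intro hh
      split_ifs at hh with h1
      have h2 : h * a * g = b := Option.some.inj hh
      subst h2
      have h3 : h * g * (h * a * g) = h * a * g := by
        calc h * g * (h * a * g) = h * (g * h * a) * g := by simp only [mul_assoc]
          _ = h * a * g := by rw [h1.1]
      have h4 : h * a * g * (h * g) = h * a * g := by
        calc h * a * g * (h * g) = h * (a * (g * h)) * g := by simp only [mul_assoc]
          _ = h * a * g := by rw [h1.2]
      rw [if_pos ⟨h3, h4⟩]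
      congr 1
      calc g * (h * a * g) * h = (g * h * a) * (g * h) := by simp only [mul_assoc]
        _ = a := by rw [h1.1, h1.2]

/-- The partial inner automorphism monoid of a monoid `S` (for a monoid, `S¹ = S`). -/
def Inn (S : Type) [Monoid S] : Submonoid (SIM S) :=
  Submonoid.closure {f | ∃ g h : S, f = phi g h}

/-- Elements of the example: the dihedral group acting on `A`, the points, and zero. -/
inductive SS (A : Type) : Type
  | d (b : Bool) (i : A) : SS A
  | p (i : A) : SS A
  | z : SS A

namespace SS

variable {A : Type} [AddCommGroup A]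

/-- The right action of the dihedral group. -/
def act (x : A) (b : Bool) (i : A) : A := if b then i - x else x + i

/-- The product. -/
def mul : SS A → SS A → SS A
  | d b i, d c j => d (xor b c) (if c then j - i else i + j)
  | d _ _, p x => p x
  | p x, d b i => p (act x b i)
  | p _, p _ => z
  | z, _ => z
  | _, z => z

instance : Mul (SS A) := ⟨mul⟩
instance : One (SS A) := ⟨d false 0⟩

theorem dd (b c : Bool) (i j : A) : (d b i * d c j : SS A) =
    d (xor b c) (if c then j - i else i + j) := rfl
theorem dp (b : Bool) (i x : A) : (d b i * p x : SS A) = p x := rfl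
theorem pd (b : Bool) (i x : A) : (p x * d b i : SS A) = p (act x b i) := rfl
theorem pp (x y : A) : (p x * p y : SS A) = z := rfl
theorem zx (x : SS A) : (z * x : SS A) = z := by cases x <;> rfl
theorem xz (x : SS A) : (x * z : SS A) = z := by cases x <;> rfl
theorem one_def : (1 : SS A) = d false 0 := rfl

instance : Monoid (SS A) where
  mul_assoc a b c := by
    rcases a with ⟨a, i⟩ | i | _
    · rcases b with ⟨b, j⟩ | j | _
      · rcases c with ⟨c, k⟩ | k | _
        · rw [dd, dd, dd, dd]
          rcases b with _ | _ <;> rcases c with _ | _ <;> simp <;> abel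
        · rfl
        · rfl
      · rcases c with ⟨c, k⟩ | k | _
        · rfl
        · rfl
        · rfl
      · rcases c with ⟨c, k⟩ | k | _ <;> rfl
    · rcases b with ⟨b, j⟩ | j | _
      · rcases c with ⟨c, k⟩ | k | _
        · rw [pd, pd, dd, pd]
          rcases b with _ | _ <;> rcases c with _ | _ <;> simp [act] <;> abel
        · rfl
        · rfl
      · rcases c with ⟨c, k⟩ | k | _
        · rfl
        · rfl
        · rfl
      · rcases c with ⟨c, k⟩ | k | _ <;> rfl
    · rw [zx, zx, zx]
  one_mul a := by
    rw [one_def]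
    rcases a with ⟨a, i⟩ | i | _
    · rw [dd]; rcases a with _ | _ <;> simp
    · rfl
    · rfl
  mul_one a := by
    rw [one_def]
    rcases a with ⟨a, i⟩ | i | _
    · rw [dd]; simp
    · rw [pd]; simp [act]
    · rfl

/-- Functoriality. -/
def mapFun {B : Type} (f : A → B) : SS A → SS B
  | d b i => d b (f i)
  | p i => p (f i)
  | z => z

def map {B : Type} [AddCommGroup B] (f : A →+ B) : SS A →ₙ* SS B where
  toFun := mapFun f
  map_mul' x y := by
    rcases x with ⟨a, i⟩ | i | _ <;> rcases y with ⟨b, j⟩ | j | _ <;> try rfl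
    · rw [dd]
      show d _ (f _) = d _ _ * d _ _
      rw [dd]
      rcases b with _ | _ <;> simp
    · rw [pd]
      show p (f _) = p _ * d _ _
      rw [pd]
      rcases b with _ | _ <;> simp [act]

instance {m : ℕ} [NeZero m] : Finite (SS (ZMod m)) := by
  let f : SS (ZMod m) → Option ((Bool × ZMod m) ⊕ ZMod m) := fun x => match x with
    | d b i => some (Sum.inl (b, i))
    | p i => some (Sum.inr i)
    | z => none
  refine Finite.of_injective f ?_
  intro x y h
  rcases x with ⟨a, i⟩ | i | _ <;> rcases y with ⟨b, j⟩ | j | _ <;> simp_all [f]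

end SS

open SS

/-- Residual finiteness of a semigroup. -/
def RF (M : Type) [Semigroup M] : Prop :=
  ∀ x y : M, x ≠ y → ∃ (F : Type) (_ : Semigroup F) (_ : Finite F) (f : M →ₙ* F), f x ≠ f y

theorem int_sep {i j : ℤ} (h : i ≠ j) : ∃ m : ℕ, m ≠ 0 ∧ (i : ZMod m) ≠ (j : ZMod m) := by
  refine ⟨(i - j).natAbs + 1, by omega, ?_⟩
  intro h1
  rw [ZMod.intCast_eq_intCast_iff_dvd_sub] at h1
  have h2 : ((i - j).natAbs + 1 : ℕ) ∣ (j - i).natAbs := by
    have := Int.natAbs_dvd_natAbs.2 h1
    rwa [Int.natAbs_natCast] at this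
  have h3 : (j - i).natAbs = (i - j).natAbs := by omega
  rw [h3] at h2
  have h4 : 0 < (i - j).natAbs := by omega
  have := Nat.le_of_dvd h4 h2
  omega

theorem rf : RF (SS ℤ) := by
  have key : ∀ (x y : SS ℤ) (m : ℕ), m ≠ 0 →
      (mapFun (Int.castAddHom (ZMod m)) x : SS (ZMod m)) ≠ mapFun (Int.castAddHom (ZMod m)) y →
      ∃ (F : Type) (_ : Semigroup F) (_ : Finite F) (f : SS ℤ →ₙ* F), f x ≠ f y := by
    intro x y m hm h
    haveI : NeZero m := ⟨hm⟩
    exact ⟨SS (ZMod m), inferInstance, inferInstance, SS.map (Int.castAddHom (ZMod m)), h⟩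
  intro x y hxy
  rcases x with ⟨a, i⟩ | i | _ <;> rcases y with ⟨b, j⟩ | j | _
  · by_cases hab : a = b
    · subst hab
      have hij : i ≠ j := by rintro rfl; exact hxy rfl
      obtain ⟨m, hm, h⟩ := int_sep hij
      refine key _ _ m hm ?_
      intro h1
      simp only [mapFun, d.injEq] at h1
      exact h h1.2
    · refine key _ _ 1 one_ne_zero ?_
      intro h1
      simp only [mapFun, d.injEq] at h1
      exact hab h1.1
  · exact key _ _ 1 one_ne_zero (by simp [mapFun])
  · exact key _ _ 1 one_ne_zero (by simp [mapFun])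
  · exact key _ _ 1 one_ne_zero (by simp [mapFun])
  · have hij : i ≠ j := by rintro rfl; exact hxy rfl
    obtain ⟨m, hm, h⟩ := int_sep hij
    refine key _ _ m hm ?_
    intro h1
    simp only [mapFun, p.injEq] at h1
    exact h h1
  · exact key _ _ 1 one_ne_zero (by simp [mapFun])
  · exact key _ _ 1 one_ne_zero (by simp [mapFun])
  · exact key _ _ 1 one_ne_zero (by simp [mapFun])
  · exact absurd rfl hxy

theorem fg : ∃ T : Set (SS ℤ), T.Finite ∧ Subsemigroup.closure T = ⊤ := by
  refine ⟨{d false 1, d false (-1), d true 0, p 0, z}, Set.toFinite _, ?_⟩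
  set C := Subsemigroup.closure ({d false 1, d false (-1), d true 0, p 0, z} : Set (SS ℤ)) with hC
  have h1 : d false 1 ∈ C := Subsemigroup.subset_closure (by simp)
  have h2 : d false (-1) ∈ C := Subsemigroup.subset_closure (by simp)
  have h3 : d true 0 ∈ C := Subsemigroup.subset_closure (by simp)
  have h4 : p 0 ∈ C := Subsemigroup.subset_closure (by simp)
  have h5 : z ∈ C := Subsemigroup.subset_closure (by simp)
  have h6 : ∀ n : ℤ, d false n ∈ C := by
    intro n
    induction n using Int.induction_on with
    | zero =>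
      have := C.mul_mem h1 h2
      rw [dd] at this
      simpa using this
    | succ n ih =>
      have := C.mul_mem ih h1
      rw [dd] at this
      simpa using this
    | pred n ih =>
      have := C.mul_mem ih h2
      rw [dd] at this
      simpa [sub_eq_add_neg] using this
  rw [eq_top_iff]
  intro x _
  rcases x with ⟨a, i⟩ | i | _
  · rcases a with _ | _
    · exact h6 i
    · have := C.mul_mem h3 (h6 i)
      rw [dd] at this
      simpa using this
  · have := C.mul_mem h4 (h6 i)
    rw [pd] at this
    simpa [act] using this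
  · exact h5

/-- `p 0 ↦ p n`, `z ↦ z`. -/
noncomputable def ep (n : ℤ) : SIM (SS ℤ) := phi (d false n) (d true n)
/-- `p n ↦ p 0`, `z ↦ z`. -/
noncomputable def eq (n : ℤ) : SIM (SS ℤ) := phi (d true n) (d false n)

theorem ep_mem (n : ℤ) : ep n ∈ Inn (SS ℤ) := Submonoid.subset_closure ⟨_, _, rfl⟩
theorem eq_mem (n : ℤ) : eq n ∈ Inn (SS ℤ) := Submonoid.subset_closure ⟨_, _, rfl⟩

theorem toFun_phi (g h a : SS ℤ) : ev (phi g h) a =
    open Classical in if g * h * a = a ∧ a * (g * h) = a then some (h * a * g) else none := rfl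

theorem ep_apply (n : ℤ) (a : SS ℤ) : ev (ep n) a =
    match a with
    | d _ _ => none
    | p i => if i = 0 then some (p n) else none
    | z => some z := by
  unfold ep
  rw [toFun_phi]
  have hk : (d false n * d true n : SS ℤ) = d true 0 := by rw [dd]; simp
  rw [hk]
  rcases a with ⟨b, i⟩ | i | _
  · rw [if_neg]
    rintro ⟨h1, -⟩
    rw [dd] at h1
    simp only [d.injEq] at h1
    rcases b with _ | _ <;> simp at h1
  · rw [dp, pd]
    by_cases hi : i = 0
    · subst hi
      rw [if_pos ⟨rfl, by simp [act]⟩]
      simp only [dp, pd, act, if_true]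
      simp
    · rw [if_neg]
      · simp [hi]
      · rintro ⟨-, h1⟩
        simp only [act, p.injEq, if_true] at h1
        omega
  · rw [if_pos ⟨rfl, rfl⟩]; rfl

theorem eq_apply (n : ℤ) (a : SS ℤ) : ev (eq n) a =
    match a with
    | d _ _ => none
    | p i => if i = n then some (p 0) else none
    | z => some z := by
  unfold eq
  rw [toFun_phi]
  have hk : (d true n * d false n : SS ℤ) = d true (n + n) := by rw [dd]; simp
  rw [hk]
  rcases a with ⟨b, i⟩ | i | _
  · rw [if_neg]
    rintro ⟨h1, -⟩
    rw [dd] at h1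
    simp only [d.injEq] at h1
    rcases b with _ | _ <;> simp at h1
  · rw [dp, pd]
    by_cases hi : i = n
    · subst hi
      rw [if_pos ⟨rfl, by simp [act]⟩]
      simp only [dp, pd, act, if_true]
      simp
    · rw [if_neg]
      · simp [hi]
      · rintro ⟨-, h1⟩
        simp only [act, p.injEq, if_true] at h1
        omega
  · rw [if_pos ⟨rfl, rfl⟩]; rfl

theorem ep_mul_eq (m n : ℤ) : ep m * eq n = if m = n then ep 0 else ep 0 * eq 1 := by
  have h1 : ∀ (m n : ℤ) (a : SS ℤ), ev (ep m * eq n) a =
      match a with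
      | d _ _ => none
      | p i => if i = 0 ∧ m = n then some (p 0) else none
      | z => some z := by
    intro m n a
    rw [ev_mul, ep_apply]
    rcases a with ⟨b, i⟩ | i | _
    · rfl
    · by_cases hi : i = 0
      · subst hi
        simp only [if_true, Option.bind_some, true_and]
        rw [eq_apply]
      · simp [hi]
    · simp only [Option.bind_some]
      rw [eq_apply]
  split_ifs with h
  · subst h
    apply ev_ext
    intro a
    rw [h1, ep_apply]
    rcases a with ⟨b, i⟩ | i | _ <;> simp
  · apply ev_ext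
    intro a
    rw [h1, h1]
    rcases a with ⟨b, i⟩ | i | _ <;> simp [h]

/-- There is a finitely generated residually finite semigroup (in fact a monoid) `S` and two
distinct elements of its partial inner automorphism monoid that no homomorphism to a finite
semigroup separates. -/
theorem result : ∃ (S : Type) (_ : Monoid S), (∃ T : Set S, T.Finite ∧ Subsemigroup.closure T = ⊤) ∧
    (∀ x y : S, x ≠ y →
      ∃ (F : Type) (_ : Semigroup F) (_ : Finite F) (f : S →ₙ* F), f x ≠ f y) ∧
    ∃ x y : Inn S, x ≠ y ∧
      ∀ (F : Type) [Semigroup F] [Finite F] (f : Inn S →ₙ* F), f x = f y := by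
  refine ⟨SS ℤ, inferInstance, fg, rf, ⟨ep 0, ep_mem 0⟩,
    ⟨ep 0 * eq 1, Submonoid.mul_mem _ (ep_mem 0) (eq_mem 1)⟩, ?_, ?_⟩
  · intro h
    have h1 : ep 0 = ep 0 * eq 1 := congrArg Subtype.val h
    have h2 := congrArg (fun f : SIM (SS ℤ) => ev f (p 0)) h1
    have h3 : ev (ep 0 * eq 1) (p 0) = none := by
      rw [ev_mul, ep_apply]
      simp only [if_true, Option.bind_some]
      rw [eq_apply]
      simp
    have h4 : ev (ep 0) (p 0) = some (p 0) := by
      rw [ep_apply]; simp
    have h5 : ev (ep 0) (p 0) = ev (ep 0 * eq 1) (p 0) := h2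
    rw [h3, h4] at h5
    exact absurd h5 (by simp)
  · intro F _ _ f
    obtain ⟨m, n, hmn, h⟩ := Finite.exists_ne_map_eq_of_infinite
      (fun n : ℤ => f ⟨ep n, ep_mem n⟩)
    have h1 : f (⟨ep n, ep_mem n⟩ * ⟨eq n, eq_mem n⟩) = f (⟨ep m, ep_mem m⟩ * ⟨eq n, eq_mem n⟩) := by
      rw [map_mul, map_mul]
      have h' : f ⟨ep m, ep_mem m⟩ = f ⟨ep n, ep_mem n⟩ := h
      rw [h']
    have h2 : (⟨ep n, ep_mem n⟩ * ⟨eq n, eq_mem n⟩ : Inn (SS ℤ)) = ⟨ep 0, ep_mem 0⟩ := by
      apply Subtype.ext
      show ep n * eq n = ep 0
      rw [ep_mul_eq, if_pos rfl]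
    have h3 : (⟨ep m, ep_mem m⟩ * ⟨eq n, eq_mem n⟩ : Inn (SS ℤ)) =
        ⟨ep 0 * eq 1, Submonoid.mul_mem _ (ep_mem 0) (eq_mem 1)⟩ := by
      apply Subtype.ext
      show ep m * eq n = ep 0 * eq 1
      rw [ep_mul_eq, if_neg hmn]
    rw [h2, h3] at h1
    exact h1

end Pool.Agent.Results.MP_c9edc3_al.DihedralExample
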